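import Pool.Agent.N272.Dbl.Game
import Pool.Agent.N272.Dbl.Doubling

/-!
# A doubling game space with infinite cop number

The points of the space are sequences `(c, x 1, x 2, …)` of points of the circle of length one such
that `3 x n` is equal to `P n c` or to `- P n c` for every `n ≥ 1`, where `P n c = 3 * 2 ^ n * c - 1 / 4`;
the distance of two points is the length of the shortest path between them, where lengths are with
respect to the supremum of `2 ^ (-n)` times the distance of the `n`-th coordinates. So all
coordinates move at full speed, up or down, as the common clock `c` moves, and can change their
direction only at some crossings; at every scale this happens only in few coordinates, and the space is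
doubling. Against `k` cops the clock of the robber runs uniformly, and at each crossing of the
`i`-th coordinate he chooses the direction of this coordinate such that it runs away from that of
the `i`-th cop: this coordinate is never closer than `1 / 6` to that of the cop.
-/

set_option autoImplicit false

namespace Pool.Agent.Results.MP_f04f62_co.DoublingInfinite

open Pool.Agent.N272.Dbl

/-- There is a compact geodesic metric space with finite doubling constant, on which the robber has
a winning strategy against any finite number of cops. -/
theorem result : ∃ (X : Type) (_ : MetricSpace X), CompactSpace X ∧ IsGeodesicSpace X ∧
    IsDoublingSpace X ∧ ∀ k : ℕ, ∃ S : RobberStrategy X k, S.Wins :=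
  ⟨X, inferInstance, inferInstance, geodesic, doubling, fun k => ⟨strat k, strat_wins k⟩⟩

end Pool.Agent.Results.MP_f04f62_co.DoublingInfinite
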